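import Pool.Agent.Helper45.CF.GoalsA
import Pool.Agent.Helper32.CAR.IL

/-!
# Project CF, packet CF-KW: the algebra of compact operators over `W`
-/

set_option maxHeartbeats 400000

open scoped ComplexOrder Topology
open TopologicalSpace Filter

namespace Pool.Agent.Helper48.CF

open Pool.Agent.Helper34.CAR Pool.Agent.Helper45.CF

noncomputable section

variable {W : Type} [CStarAlgebra W]

/-- The entries of the padded matrix. -/
def padE {n : ℕ} (a : Fin n → Fin n → W) (i j : Fin (n + 1)) : W :=
  Fin.lastCases (motive := fun _ => W) 0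
    (fun i' => Fin.lastCases (motive := fun _ => W) 0 (fun j' => a i' j') j) i

theorem padE_last_left {n : ℕ} (a : Fin n → Fin n → W) (j : Fin (n + 1)) :
    padE a (Fin.last n) j = 0 := by
  simp [padE]

theorem padE_last_right {n : ℕ} (a : Fin n → Fin n → W) (i : Fin (n + 1)) :
    padE a i (Fin.last n) = 0 := by
  induction i using Fin.lastCases with
  | last => simp [padE]
  | cast i => simp [padE]

theorem padE_cast {n : ℕ} (a : Fin n → Fin n → W) (i j : Fin n) :
    padE a i.castSucc j.castSucc = a i j := by
  simp [padE]

/-- Padding by a row and a column of zeros. -/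
def pad (n : ℕ) : Mt (Fin n) W →⋆ₙₐ[ℂ] Mt (Fin (n + 1)) W where
  toFun a := Mt.of fun i j => padE (fun i j => a i j) i j
  map_smul' c a := by
    ext i j
    induction i using Fin.lastCases with
    | last => simp [padE_last_left]
    | cast i =>
      induction j using Fin.lastCases with
      | last => simp [padE_last_right]
      | cast j => simp [padE_cast]
  map_zero' := by
    ext i j
    induction i using Fin.lastCases with
    | last => simp [padE_last_left]
    | cast i =>
      induction j using Fin.lastCases with
      | last => simp [padE_last_right]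
      | cast j => simp [padE_cast]
  map_add' a b := by
    ext i j
    induction i using Fin.lastCases with
    | last => simp [padE_last_left]
    | cast i =>
      induction j using Fin.lastCases with
      | last => simp [padE_last_right]
      | cast j => simp [padE_cast]
  map_mul' a b := by
    ext i j
    rw [Mt.mul_apply, Fin.sum_univ_castSucc]
    simp only [Mt.of_apply]
    induction i using Fin.lastCases with
    | last => simp [padE_last_left]
    | cast i =>
      induction j using Fin.lastCases with
      | last => simp [padE_last_right]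
      | cast j => simp [padE_cast, padE_last_left, padE_last_right]
  map_star' a := by
    ext i j
    rw [Mt.star_apply]
    simp only [Mt.of_apply]
    induction i using Fin.lastCases with
    | last => simp [padE_last_left, padE_last_right]
    | cast i =>
      induction j using Fin.lastCases with
      | last => simp [padE_last_right, padE_last_left]
      | cast j => simp [padE_cast]

theorem pad_apply (n : ℕ) (a : Mt (Fin n) W) (i j : Fin (n + 1)) :
    pad n a i j = padE (fun i j => a i j) i j := rfl

theorem pad_injective (n : ℕ) : Function.Injective (pad (W := W) n) := by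
  intro a b h
  ext i j
  have h1 := congrArg (fun m : Mt (Fin (n + 1)) W => m i.castSucc j.castSucc) h
  simpa [pad_apply, padE_cast] using h1

/-- The matrix with the only entry `w` at the place `i, j`. -/
def EE (n i j : ℕ) (w : W) : Mt (Fin n) W :=
  Mt.of fun a b => if (a : ℕ) = i ∧ (b : ℕ) = j then w else 0

theorem EE_apply (n i j : ℕ) (w : W) (a b : Fin n) :
    EE n i j w a b = if (a : ℕ) = i ∧ (b : ℕ) = j then w else 0 := rfl

theorem pad_EE {n i j : ℕ} (hi : i < n) (hj : j < n) (w : W) :
    pad n (EE n i j w) = EE (n + 1) i j w := by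
  ext a b
  rw [pad_apply, EE_apply]
  induction a using Fin.lastCases with
  | last =>
    rw [padE_last_left, if_neg]
    simp only [Fin.val_last]
    omega
  | cast a =>
    induction b using Fin.lastCases with
    | last =>
      rw [padE_last_right, if_neg]
      simp only [Fin.val_last]
      omega
    | cast b =>
      rw [padE_cast, EE_apply]
      simp

theorem EE_mul {n j : ℕ} (hj : j < n) (i k : ℕ) (a b : W) :
    EE n i j a * EE n j k b = EE n i k (a * b) := by
  ext x y
  rw [Mt.mul_apply, Finset.sum_eq_single (⟨j, hj⟩ : Fin n)]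
  · simp only [EE_apply]
    by_cases h1 : (x : ℕ) = i <;> by_cases h2 : (y : ℕ) = k <;> simp [h1, h2]
  · intro c _ hc
    have : (c : ℕ) ≠ j := fun h => hc (Fin.ext h)
    simp [EE_apply, this]
  · simp

theorem EE_mul0 {n j k : ℕ} (hjk : j ≠ k) (i l : ℕ) (a b : W) :
    EE n i j a * EE n k l b = 0 := by
  ext x y
  rw [Mt.mul_apply]
  refine Finset.sum_eq_zero fun c _ => ?_
  simp only [EE_apply]
  by_cases h1 : (c : ℕ) = j
  · have : ¬ (c : ℕ) = k := fun h2 => hjk (h1.symm.trans h2)
    simp [this]
  · simp [h1]

theorem EE_star (n i j : ℕ) (a : W) : star (EE n i j a) = EE n j i (star a) := by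
  ext x y
  simp only [Mt.star_apply, EE_apply]
  by_cases h1 : (x : ℕ) = j <;> by_cases h2 : (y : ℕ) = i <;> simp [h1, h2]

theorem EE_inj {n i j : ℕ} (hi : i < n) (hj : j < n) (a : W) (h : EE n i j a = 0) : a = 0 := by
  have h1 := congrArg (fun m : Mt (Fin n) W => m ⟨i, hi⟩ ⟨j, hj⟩) h
  simpa [EE_apply] using h1

theorem EE_eq_single {n : ℕ} (i j : Fin n) (a : W) :
    EE n i j a = Mt.single i j a := by
  ext x y
  simp only [EE_apply, Mt.single_apply, Fin.ext_iff]

/-- `EE` as a linear map. -/
def EEl (n i j : ℕ) : W →ₗ[ℂ] Mt (Fin n) W where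
  toFun := EE n i j
  map_add' a b := by
    ext x y
    simp only [Mt.add_apply, EE_apply]
    split_ifs <;> simp
  map_smul' c a := by
    ext x y
    simp only [Mt.smul_apply, EE_apply, RingHom.id_apply]
    split_ifs <;> simp

theorem norm_EE_le {n i j : ℕ} (hi : i < n) (hj : j < n) (a : W) : ‖EE n i j a‖ ≤ ‖a‖ := by
  have h : EE n i j a = Mt.single (⟨i, hi⟩ : Fin n) ⟨j, hj⟩ a := EE_eq_single ⟨i, hi⟩ ⟨j, hj⟩ a
  rw [h]
  exact Mt.norm_single_le _ _ _

/-- Packet CF-KW. -/
theorem t : S_KW := by
  intro W _ _
  obtain ⟨K, iK, ι, hc, hinj, hd⟩ := Pool.Agent.Helper32.CAR.il0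
    (A := fun n => Mt (Fin n) W) (fun n => pad n) (fun n => pad_injective n)
  -- the linear map
  let L : ∀ n, Mt (Fin n) W →ₗ[ℂ] K := fun n =>
    { toFun := ι n
      map_add' := fun a b => map_add (ι n) a b
      map_smul' := fun c a => map_smul (ι n) c a }
  let e : ℕ → ℕ → W →ₗ[ℂ] K := fun i j => (L (max i j + 1)).comp (EEl (max i j + 1) i j)
  have he0 : ∀ i j w, e i j w = ι (max i j + 1) (EE (max i j + 1) i j w) := fun _ _ _ => rfl
  have he : ∀ n i j w, i < n → j < n → ι n (EE n i j w) = e i j w := by
    intro n i j w hi hj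
    have hle : max i j + 1 ≤ n := by
      have := max_lt hi hj
      omega
    clear hi hj
    induction n, hle using Nat.le_induction with
    | base => rw [he0]
    | succ n hn ih =>
      have hi : i < n := lt_of_le_of_lt (le_max_left i j) hn
      have hj : j < n := lt_of_le_of_lt (le_max_right i j) hn
      rw [← pad_EE hi hj, hc, ih]
  have hcont : ∀ i j, Continuous (e i j) := by
    intro i j
    refine AddMonoidHomClass.continuous_of_bound (e i j) 1 fun w => ?_
    rw [he0, one_mul]
    exact (NonUnitalStarAlgHom.norm_apply_le _ _).trans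
      (norm_EE_le (Nat.lt_succ_of_le (le_max_left i j)) (Nat.lt_succ_of_le (le_max_right i j)) w)
  have hsum : ∀ n (a : Mt (Fin n) W), ι n a = ∑ i : Fin n, ∑ j : Fin n, e i j (a i j) := by
    intro n a
    conv_lhs => rw [Mt.eq_sum_single a]
    rw [map_sum]
    refine Finset.sum_congr rfl fun i _ => ?_
    rw [map_sum]
    refine Finset.sum_congr rfl fun j _ => ?_
    rw [← he n i j _ i.2 j.2, EE_eq_single]
  refine ⟨K, iK, e, ?_, ?_⟩
  · -- separability
    have h1 : ∀ n, IsSeparable (Set.range (ι n)) := by
      intro n
      have h2 : Set.range (ι n) ⊆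
          Set.range (fun f : Fin n → Fin n → W => ∑ i : Fin n, ∑ j : Fin n, e i j (f i j)) := by
        rintro _ ⟨a, rfl⟩
        exact ⟨fun i j => a i j, (hsum n a).symm⟩
      have h3 : Continuous
          (fun f : Fin n → Fin n → W => ∑ i : Fin n, ∑ j : Fin n, e i j (f i j)) := by
        refine continuous_finsetSum _ fun i _ => continuous_finsetSum _ fun j _ => ?_
        exact (hcont i j).comp ((continuous_apply j).comp (continuous_apply i))
      exact (isSeparable_range h3).mono h2
    have h4 : IsSeparable (⋃ n, Set.range (ι n)) := IsSeparable.iUnion h1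
    have h5 : IsSeparable (Set.univ : Set K) := by
      have := h4.closure
      rwa [hd.closure_eq] at this
    exact isSeparable_univ_iff.1 h5
  · constructor
    · intro i j k a b
      have h1 : i < i + j + k + 1 := by omega
      have h2 : j < i + j + k + 1 := by omega
      have h3 : k < i + j + k + 1 := by omega
      rw [← he _ i j a h1 h2, ← he _ j k b h2 h3, ← he _ i k (a * b) h1 h3, ← map_mul,
        EE_mul h2]
    · intro i j k l a b hjk
      have h1 : i < i + j + k + l + 1 := by omega
      have h2 : j < i + j + k + l + 1 := by omega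
      have h3 : k < i + j + k + l + 1 := by omega
      have h4 : l < i + j + k + l + 1 := by omega
      rw [← he _ i j a h1 h2, ← he _ k l b h3 h4, ← map_mul, EE_mul0 hjk, map_zero]
    · intro i j a
      have h1 : i < i + j + 1 := by omega
      have h2 : j < i + j + 1 := by omega
      rw [← he _ i j a h1 h2, ← he _ j i (star a) h2 h1, ← map_star, EE_star]
    · intro i j a ha
      rw [he0] at ha
      have h1 := (injective_iff_map_eq_zero (ι (max i j + 1))).1 (hinj _) _ ha
      exact EE_inj (Nat.lt_succ_of_le (le_max_left i j)) (Nat.lt_succ_of_le (le_max_right i j)) a h1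
    · refine hd.mono ?_
      intro x hx
      obtain ⟨n, a, rfl⟩ := Set.mem_iUnion.1 hx
      refine ⟨n, fun i j => if h : i < n ∧ j < n then a ⟨i, h.1⟩ ⟨j, h.2⟩ else 0, ?_⟩
      rw [hsum, Finset.sum_range]
      refine Finset.sum_congr rfl fun i _ => ?_
      rw [Finset.sum_range]
      refine Finset.sum_congr rfl fun j _ => ?_
      have h5 : (i : ℕ) < n ∧ (j : ℕ) < n := ⟨i.2, j.2⟩
      change e i j (a i j) = e i j (if h : (i : ℕ) < n ∧ (j : ℕ) < n then
        a ⟨(i : ℕ), h.1⟩ ⟨(j : ℕ), h.2⟩ else 0)
      rw [dif_pos h5]

end

end Pool.Agent.Helper48.CF
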